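import Pool.Agent.Helper14.W5.StE

/-!
# Project W5: lifting solutions of the relations from `ZMod (5^M)` to the integers
-/

set_option autoImplicit false

namespace Pool.Agent.Helper16.W5

open Pool.Agent.Helper14.W5

namespace LfmM

private abbrev Pt (r s : ℕ) : Type := ZMod (5 ^ r) × ZMod (5 ^ s)

private def mu {r s : ℕ} (a b c d : ℤ) (p : Pt r s) : Pt r s :=
  tr5 a b c d (fun x y => ((x, y) : Pt r s)) p.1 p.2

private theorem mu_mul (hTrm : S5Trm) {r s : ℕ} {a b c d a' b' c' d' : ℤ} (h1 : ¬ 5 ∣ a)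
    (h2 : ¬ 5 ∣ d) (h3 : ¬ 5 ∣ a') (h4 : ¬ 5 ∣ d') (p : Pt r s) :
    mu a' b' c' d' (mu a b c d p) =
      mu (a * a' + 5 * b * c') (a * b' + b * d') (c * a' + d * c') (5 * c * b' + d * d') p := by
  have h := congrFun (congrFun ((hTrm (Pt r s) r s (fun x y => (x, y))).1 a b c d a' b' c' d'
    h1 h2 h3 h4) p.1) p.2
  exact h

private theorem mu_one (hTrm : S5Trm) {r s : ℕ} (p : Pt r s) : mu 1 0 0 1 p = p := by
  have h := congrFun (congrFun (hTrm (Pt r s) r s (fun x y => (x, y))).2.1 p.1) p.2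
  exact h

private theorem mu_neg (hTrm : S5Trm) {r s : ℕ} (p : Pt r s) : mu (-1) 0 0 (-1) p = p := by
  have h := congrFun (congrFun ((hTrm (Pt r s) r s (fun x y => (x, y))).2.2 (-1) 1 0 0 1
    (by norm_num) (by norm_num) (by norm_num)) p.1) p.2
  norm_num at h
  have h' : mu (-1) 0 0 (-1) p = mu 1 0 0 1 p := h
  rw [h', mu_one hTrm]

private theorem res {a b c d : ℤ} (h : a * d - 5 * b * c = 1) : ¬ 5 ∣ a ∧ ¬ 5 ∣ d := by
  constructor
  · rintro ⟨k, rfl⟩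
    have : 5 * (k * d) - 5 * (b * c) = 1 := by linear_combination h
    omega
  · rintro ⟨k, rfl⟩
    have : 5 * (a * k) - 5 * (b * c) = 1 := by linear_combination h
    omega

private theorem mu_inv (hTrm : S5Trm) {r s : ℕ} {a b c d : ℤ} (h : a * d - 5 * b * c = 1)
    (p : Pt r s) : mu d (-b) (-c) a (mu a b c d p) = p := by
  obtain ⟨h1, h2⟩ := res h
  rw [mu_mul hTrm h1 h2 h2 h1]
  have e1 : a * d + 5 * b * -c = 1 := by linear_combination h
  have e2 : a * -b + b * a = 0 := by ring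
  have e3 : c * d + d * -c = 0 := by ring
  have e4 : 5 * c * -b + d * a = 1 := by linear_combination h
  rw [e1, e2, e3, e4, mu_one hTrm]

private theorem mu_bij (hTrm : S5Trm) {r s : ℕ} {a b c d : ℤ} (h : a * d - 5 * b * c = 1) :
    Function.Bijective (mu a b c d : Pt r s → Pt r s) := by
  refine Function.bijective_iff_has_inverse.2 ⟨mu d (-b) (-c) a, fun p => mu_inv hTrm h p,
    fun p => ?_⟩
  have := mu_inv hTrm (r := r) (s := s) (a := d) (b := -b) (c := -c) (d := a)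
    (by linear_combination h) p
  rw [neg_neg, neg_neg] at this
  exact this

private instance fin_pt (r s : ℕ) : Fintype (Pt r s) := by
  have : NeZero (5 ^ r) := ⟨by positivity⟩
  have : NeZero (5 ^ s) := ⟨by positivity⟩
  infer_instance

private theorem bT (hTrm : S5Trm) {r s : ℕ} :
    Function.Bijective (mu 1 1 0 1 : Pt r s → Pt r s) := mu_bij hTrm (by norm_num)

private theorem b2 (hTrm : S5Trm) {r s : ℕ} :
    Function.Bijective (mu 2 (-1) 1 (-2) : Pt r s → Pt r s) := mu_bij hTrm (by norm_num)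

private theorem b3 (hTrm : S5Trm) {r s : ℕ} :
    Function.Bijective (mu 3 (-2) 1 (-3) : Pt r s → Pt r s) := mu_bij hTrm (by norm_num)

private theorem t2t2 (hTrm : S5Trm) {r s : ℕ} (p : Pt r s) :
    mu 2 (-1) 1 (-2) (mu 2 (-1) 1 (-2) p) = p := by
  have h := mu_mul hTrm (r := r) (s := s) (a := 2) (b := -1) (c := 1) (d := -2) (a' := 2)
    (b' := -1) (c' := 1) (d' := -2) (by norm_num) (by norm_num) (by norm_num) (by norm_num) p
  norm_num at h
  rw [h, mu_neg hTrm]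

private theorem t3t3 (hTrm : S5Trm) {r s : ℕ} (p : Pt r s) :
    mu 3 (-2) 1 (-3) (mu 3 (-2) 1 (-3) p) = p := by
  have h := mu_mul hTrm (r := r) (s := s) (a := 3) (b := -2) (c := 1) (d := -3) (a' := 3)
    (b' := -2) (c' := 1) (d' := -3) (by norm_num) (by norm_num) (by norm_num) (by norm_num) p
  norm_num at h
  rw [h, mu_neg hTrm]

private theorem t3T (hTrm : S5Trm) {r s : ℕ} (p : Pt r s) :
    mu 1 1 0 1 (mu 3 (-2) 1 (-3) p) = mu 3 1 1 2 p := by
  have h := mu_mul hTrm (r := r) (s := s) (a := 3) (b := -2) (c := 1) (d := -3) (a' := 1)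
    (b' := 1) (c' := 0) (d' := 1) (by norm_num) (by norm_num) (by norm_num) (by norm_num) p
  norm_num at h
  exact h

private theorem t3t2B (hTrm : S5Trm) {r s : ℕ} (p : Pt r s) :
    mu 1 0 1 1 (mu 2 (-1) 1 (-2) (mu 3 (-2) 1 (-3) p)) = mu 1 1 0 1 p := by
  have h := mu_mul hTrm (r := r) (s := s) (a := 3) (b := -2) (c := 1) (d := -3) (a' := 2)
    (b' := -1) (c' := 1) (d' := -2) (by norm_num) (by norm_num) (by norm_num) (by norm_num) p
  norm_num at h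
  have h' := mu_mul hTrm (r := r) (s := s) (a := -4) (b := 1) (c := -1) (d := 1) (a' := 1)
    (b' := 0) (c' := 1) (d' := 1) (by norm_num) (by norm_num) (by norm_num) (by norm_num) p
  norm_num at h'
  rw [h, h']

/-- the defect of the relation -/
private def cob (r s : ℕ) : (Fin 3 → Pt r s → ℤ) →+ (Pt r s → ℤ) where
  toFun H := fun p => H 0 p - H 0 (mu 1 1 0 1 p) - (H 1 p - H 1 (mu 2 (-1) 1 (-2) p)) -
    (H 2 p - H 2 (mu 3 (-2) 1 (-3) p))
  map_zero' := by funext p; simp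
  map_add' H K := by funext p; simp only [Pi.add_apply]; ring

private noncomputable def dl {r s : ℕ} (p : Pt r s) : Pt r s → ℤ := by
  classical exact Pi.single p 1

private theorem dl_app {r s : ℕ} (p q : Pt r s) [Decidable (q = p)] :
    dl p q = if q = p then 1 else 0 := by
  classical
  unfold dl
  rw [Pi.single_apply]
  congr

private def Eqp {r s : ℕ} (p q : Pt r s) : Prop := dl p - dl q ∈ (cob r s).range

private theorem Eqp.rfl' {r s : ℕ} (p : Pt r s) : Eqp p p := by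
  unfold Eqp; rw [sub_self]; exact zero_mem _

private theorem Eqp.sym {r s : ℕ} {p q : Pt r s} (h : Eqp p q) : Eqp q p := by
  unfold Eqp at *; have := neg_mem h; rwa [neg_sub] at this

private theorem Eqp.trs {r s : ℕ} {p q t : Pt r s} (h : Eqp p q) (h' : Eqp q t) : Eqp p t := by
  unfold Eqp at *; have := add_mem h h'; rwa [sub_add_sub_cancel] at this

private theorem dl_inj {r s : ℕ} {f : Pt r s → Pt r s} (hf : Function.Injective f) (p q : Pt r s) :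
    dl (f p) (f q) = dl p q := by
  classical
  rw [dl_app, dl_app]
  simp [hf.eq_iff]

private theorem eT (hTrm : S5Trm) {r s : ℕ} (p : Pt r s) : Eqp (mu 1 1 0 1 p) p := by
  refine ⟨![dl (mu 1 1 0 1 p), 0, 0], ?_⟩
  funext q
  have h := dl_inj (bT hTrm (r := r) (s := s)).1 p q
  simp [cob, h]

private theorem e2 (hTrm : S5Trm) {r s : ℕ} (p : Pt r s) : Eqp (mu 2 (-1) 1 (-2) p) p := by
  refine ⟨![0, -dl (mu 2 (-1) 1 (-2) p), 0], ?_⟩
  funext q
  have h := dl_inj (b2 hTrm (r := r) (s := s)).1 p q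
  simp [cob, h]
  ring

private theorem e3 (hTrm : S5Trm) {r s : ℕ} (p : Pt r s) : Eqp (mu 3 (-2) 1 (-3) p) p := by
  refine ⟨![0, 0, -dl (mu 3 (-2) 1 (-3) p)], ?_⟩
  funext q
  have h := dl_inj (b3 hTrm (r := r) (s := s)).1 p q
  simp [cob, h]
  ring

private theorem eB (hTrm : S5Trm) {r s : ℕ} (q : Pt r s) : Eqp (mu 1 0 1 1 q) q := by
  obtain ⟨q', rfl⟩ := (b2 hTrm (r := r) (s := s)).2 q
  obtain ⟨p, rfl⟩ := (b3 hTrm (r := r) (s := s)).2 q'
  rw [t3t2B hTrm]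
  exact (eT hTrm p).trs ((e3 hTrm p).sym.trs (e2 hTrm _).sym)

private theorem eqp_y (hTrm : S5Trm) {r s : ℕ} : ∀ (n : ℕ),
    Eqp ((0, (n : ZMod (5 ^ s))) : Pt r s) (0, 0) := by
  intro n
  induction n with
  | zero => rw [Nat.cast_zero]; exact Eqp.rfl' _
  | succ n ih =>
    have h := eB hTrm ((0, (n : ZMod (5 ^ s))) : Pt r s)
    have e : mu 1 0 1 1 ((0, (n : ZMod (5 ^ s))) : Pt r s) = (0, ((n + 1 : ℕ) : ZMod (5 ^ s))) := by
      have h1 : ((1 : ZMod (5 ^ s)))⁻¹ = 1 := ZMod.inv_eq_of_mul_eq_one _ _ _ (by ring)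
      simp [mu, tr5, h1, add_comm]
    rw [e] at h
    exact h.trs ih

private theorem eqp_x (hTrm : S5Trm) {r s : ℕ} : ∀ (n : ℕ) (x : ZMod (5 ^ r)) (y : ZMod (5 ^ s)),
    x + n = 0 → Eqp ((x, y) : Pt r s) (0, 0) := by
  intro n
  induction n with
  | zero =>
    intro x y h
    have : NeZero (5 ^ s) := ⟨by positivity⟩
    rw [Nat.cast_zero, add_zero] at h
    subst h
    have := eqp_y hTrm (r := r) (s := s) y.val
    rwa [ZMod.natCast_zmod_val] at this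
  | succ n ih =>
    intro x y h
    have h1 := eT hTrm ((x, y) : Pt r s)
    refine h1.sym.trs ?_
    have h2 : (mu 1 1 0 1 ((x, y) : Pt r s)).1 = x + 1 := by
      have h1 : ((1 : ZMod (5 ^ r)))⁻¹ = 1 := ZMod.inv_eq_of_mul_eq_one _ _ _ (by ring)
      simp [mu, tr5, h1, add_comm]
    have h3 : mu 1 1 0 1 ((x, y) : Pt r s) = (x + 1, (mu 1 1 0 1 ((x, y) : Pt r s)).2) := by
      rw [← h2]
    rw [h3]
    apply ih
    rw [← h]
    push_cast
    ring

private theorem eqp_all (hTrm : S5Trm) {r s : ℕ} (p : Pt r s) : Eqp p (0, 0) := by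
  have : NeZero (5 ^ r) := ⟨by positivity⟩
  exact eqp_x hTrm (-p.1).val p.1 p.2 (by rw [ZMod.natCast_zmod_val]; ring)

private theorem mem_of_sum (hTrm : S5Trm) {r s : ℕ} (E : Pt r s → ℤ) (hE : ∑ p, E p = 0) :
    E ∈ (cob r s).range := by
  classical
  have h1 : E = ∑ p, E p • (dl p - dl (0, 0)) := by
    have h2 : ∑ p, E p • (dl p - dl ((0, 0) : Pt r s)) =
        ∑ p, E p • dl p - (∑ p, E p) • dl ((0, 0) : Pt r s) := by
      rw [Finset.sum_smul, ← Finset.sum_sub_distrib]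
      exact Finset.sum_congr rfl fun p _ => smul_sub _ _ _
    rw [h2, hE, zero_smul, sub_zero]
    funext q
    rw [Finset.sum_apply]
    simp [dl_app]
  rw [h1]
  exact sum_mem fun p _ => zsmul_mem (eqp_all hTrm p) _

private theorem sum_cob (hTrm : S5Trm) {r s : ℕ} (H : Fin 3 → Pt r s → ℤ) :
    ∑ p, cob r s H p = 0 := by
  have hT := (bT hTrm (r := r) (s := s)).sum_comp (H 0)
  have h2 := (b2 hTrm (r := r) (s := s)).sum_comp (H 1)
  have h3 := (b3 hTrm (r := r) (s := s)).sum_comp (H 2)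
  show ∑ p, (H 0 p - H 0 (mu 1 1 0 1 p) - (H 1 p - H 1 (mu 2 (-1) 1 (-2) p)) -
    (H 2 p - H 2 (mu 3 (-2) 1 (-3) p))) = 0
  simp only [Finset.sum_sub_distrib]
  rw [hT, h2, h3]
  ring

private theorem two_inv (M : ℕ) : ∃ u : ZMod (5 ^ M), u * 2 = 1 := by
  have h : Nat.Coprime 2 (5 ^ M) := Nat.Coprime.pow_right M (by norm_num)
  have h1 : ((ZMod.unitOfCoprime 2 h : (ZMod (5 ^ M))ˣ) : ZMod (5 ^ M)) = 2 := by
    rw [ZMod.coe_unitOfCoprime]; rfl
  refine ⟨(((ZMod.unitOfCoprime 2 h)⁻¹ : (ZMod (5 ^ M))ˣ) : ZMod (5 ^ M)), ?_⟩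
  have h2 := Units.inv_mul (ZMod.unitOfCoprime 2 h)
  rw [h1] at h2
  exact h2

end LfmM

open LfmM in
theorem hLfm (hm : S5Trm) : S5Lfm := by
  intro r s M f hf
  have hM : NeZero (5 ^ M) := ⟨by positivity⟩
  obtain ⟨u, hu⟩ := two_inv M
  obtain ⟨hf1, hf2⟩ := hf
  let k : Pt r s → ZMod (5 ^ M) := fun p => f 0 p.1 p.2 -
    f 0 (mu 1 1 0 1 p).1 (mu 1 1 0 1 p).2 - f 1 p.1 p.2
  let g : Fin 3 → Pt r s → ZMod (5 ^ M) := ![fun p => f 0 p.1 p.2, fun p => u * f 1 p.1 p.2,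
    fun p => u * k p]
  let L : Fin 3 → Pt r s → ℤ := fun i p => ((g i p).val : ℤ)
  have hL : ∀ i p, ((L i p : ℤ) : ZMod (5 ^ M)) = g i p := by
    intro i p
    simp only [L]
    push_cast
    exact ZMod.natCast_zmod_val _
  have hr1 : ∀ p : Pt r s, f 1 p.1 p.2 +
      f 1 (mu 2 (-1) 1 (-2) p).1 (mu 2 (-1) 1 (-2) p).2 = 0 := fun p => hf1 p.1 p.2
  have hr2 : ∀ p : Pt r s, k p + k (mu 3 (-2) 1 (-3) p) = 0 := by
    intro p
    have h : f 0 p.1 p.2 - f 0 (mu 1 1 0 1 p).1 (mu 1 1 0 1 p).2 - f 1 p.1 p.2 +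
        (f 0 (mu 3 (-2) 1 (-3) p).1 (mu 3 (-2) 1 (-3) p).2 -
          f 0 (mu 3 1 1 2 p).1 (mu 3 1 1 2 p).2 -
          f 1 (mu 3 (-2) 1 (-3) p).1 (mu 3 (-2) 1 (-3) p).2) = 0 := hf2 p.1 p.2
    simp only [k]
    rw [t3T hm]
    exact h
  have g0 : ∀ p, g 0 p = f 0 p.1 p.2 := fun p => rfl
  have g1 : ∀ p, g 1 p = u * f 1 p.1 p.2 := fun p => rfl
  have g2 : ∀ p, g 2 p = u * k p := fun p => rfl
  have h5 : ∀ p, ((5 ^ M : ℕ) : ℤ) ∣ cob r s L p := by
    intro p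
    apply (ZMod.intCast_zmod_eq_zero_iff_dvd _ (5 ^ M)).1
    have h1 := hr1 p
    have h2 := hr2 p
    have hk : k p = f 0 p.1 p.2 - f 0 (mu 1 1 0 1 p).1 (mu 1 1 0 1 p).2 - f 1 p.1 p.2 := rfl
    show ((L 0 p - L 0 (mu 1 1 0 1 p) - (L 1 p - L 1 (mu 2 (-1) 1 (-2) p)) -
      (L 2 p - L 2 (mu 3 (-2) 1 (-3) p)) : ℤ) : ZMod (5 ^ M)) = 0
    push_cast
    rw [hL, hL, hL, hL, hL, hL, g0, g0, g1, g1, g2, g2]
    linear_combination u * h1 + u * h2 - hk - (k p + f 1 p.1 p.2) * hu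
  choose D hD using h5
  have hs : ∑ p, D p = 0 := by
    have h := sum_cob hm L
    rw [Finset.sum_congr rfl fun p _ => hD p, ← Finset.mul_sum] at h
    have h0 : ((5 ^ M : ℕ) : ℤ) ≠ 0 := by positivity
    exact (mul_eq_zero.1 h).resolve_left h0
  obtain ⟨H, hH⟩ := mem_of_sum hm D hs
  let N : Fin 3 → Pt r s → ℤ := fun i p => L i p - ((5 ^ M : ℕ) : ℤ) * H i p
  have hN : ∀ p, N 0 p - N 0 (mu 1 1 0 1 p) - (N 1 p - N 1 (mu 2 (-1) 1 (-2) p)) -
      (N 2 p - N 2 (mu 3 (-2) 1 (-3) p)) = 0 := by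
    intro p
    have h1 := hD p
    have h2 := congrFun hH p
    have e1 : cob r s L p = L 0 p - L 0 (mu 1 1 0 1 p) - (L 1 p - L 1 (mu 2 (-1) 1 (-2) p)) -
      (L 2 p - L 2 (mu 3 (-2) 1 (-3) p)) := rfl
    have e2 : cob r s H p = H 0 p - H 0 (mu 1 1 0 1 p) - (H 1 p - H 1 (mu 2 (-1) 1 (-2) p)) -
      (H 2 p - H 2 (mu 3 (-2) 1 (-3) p)) := rfl
    rw [e1] at h1
    rw [e2] at h2
    simp only [N]
    linear_combination h1 - ((5 ^ M : ℕ) : ℤ) * h2
  have h0 : (((5 ^ M : ℕ) : ℤ) : ZMod (5 ^ M)) = 0 := by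
    rw [Int.cast_natCast]
    exact ZMod.natCast_self _
  have hNr : ∀ i p, ((N i p : ℤ) : ZMod (5 ^ M)) = g i p := by
    intro i p
    simp only [N]
    rw [Int.cast_sub, Int.cast_mul, hL, h0, zero_mul, sub_zero]
  refine ⟨![fun x y => N 0 (x, y), fun x y => N 1 (x, y) - N 1 (mu 2 (-1) 1 (-2) (x, y))],
    ⟨?_, ?_⟩, ?_⟩
  · intro x y
    show N 1 (x, y) - N 1 (mu 2 (-1) 1 (-2) (x, y)) +
      (N 1 (mu 2 (-1) 1 (-2) (x, y)) - N 1 (mu 2 (-1) 1 (-2) (mu 2 (-1) 1 (-2) (x, y)))) = 0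
    rw [t2t2 hm]
    ring
  · intro x y
    show N 0 (x, y) - N 0 (mu 1 1 0 1 (x, y)) -
        (N 1 (x, y) - N 1 (mu 2 (-1) 1 (-2) (x, y))) +
      (N 0 (mu 3 (-2) 1 (-3) (x, y)) - N 0 (mu 3 1 1 2 (x, y)) -
        (N 1 (mu 3 (-2) 1 (-3) (x, y)) - N 1 (mu 2 (-1) 1 (-2) (mu 3 (-2) 1 (-3) (x, y))))) = 0
    have h1 := hN (x, y)
    have h2 := hN (mu 3 (-2) 1 (-3) (x, y))
    rw [t3t3 hm, t3T hm] at h2
    linear_combination h1 + h2
  · intro i x y
    have hc : ∀ p : Pt r s, ((N 1 p - N 1 (mu 2 (-1) 1 (-2) p) : ℤ) : ZMod (5 ^ M)) =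
        f 1 p.1 p.2 := by
      intro p
      rw [Int.cast_sub, hNr, hNr, g1, g1]
      linear_combination (-u) * hr1 p + f 1 p.1 p.2 * hu
    fin_cases i
    · exact hNr 0 (x, y)
    · exact hc (x, y)

end Pool.Agent.Helper16.W5
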